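import Mathlib
import Pool.Agent.H75.Gol

namespace Pool.Agent.Results.MP_b15bac_al.Golod5

open Module Pool.Agent.H64.Golod Pool.Agent.H75.Gol Matrix

instance : Fact (Nat.Prime 11) := ⟨by norm_num⟩

abbrev F := ZMod 11
abbrev R := Matrix (Fin 4) (Fin 4) (A F)

def InJ (n : ℕ) (m : R) : Prop := ∀ i j, m i j ∈ J F n

lemma InJ.mul {a b : ℕ} {m m' : R} (h : InJ a m) (h' : InJ b m') : InJ (b + a) (m * m') :=
  fun i j => by
    rw [Matrix.mul_apply]
    exact Submodule.sum_mem _ fun k _ => J_mul _ _ _ _ (h i k) (h' k j)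

lemma inJ0 (m : R) : InJ 0 m := fun _ _ => trivial

lemma InJ.add {a : ℕ} {m m' : R} (h : InJ a m) (h' : InJ a m') : InJ a (m + m') :=
  fun i j => Submodule.add_mem _ (h i j) (h' i j)

lemma InJ.pow {m : R} (h : InJ 1 m) (n : ℕ) : InJ n (m ^ n) := by
  induction n with
  | zero => exact inJ0 _
  | succ n ih => rw [pow_succ']; exact h.mul ih

def Cg (m m' : R) : Prop := InJ 1 (m - m')

lemma Cg.mul {a a' b b' : R} (h : Cg a a') (h' : Cg b b') : Cg (a * b) (a' * b') := by
  have : a * b - a' * b' = a * (b - b') + (a - a') * b' := by noncomm_ring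
  unfold Cg
  rw [this]
  exact ((inJ0 a).mul h').add (by simpa using InJ.mul h (inJ0 b'))

lemma Cg.refl (a : R) : Cg a a := fun i j => by simp

lemma Cg.pow {a a' : R} (h : Cg a a') (n : ℕ) : Cg (a ^ n) (a' ^ n) := by
  induction n with
  | zero => simpa using Cg.refl 1
  | succ n ih => rw [pow_succ, pow_succ]; exact ih.mul h

lemma Cg.sub {a a' : R} (h : Cg a a') (b : R) : Cg (a - b) (a' - b) := by
  unfold Cg at *; simpa using h

noncomputable def X0 : A F := x F 0
noncomputable def X1 : A F := x F 1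
noncomputable def X2 : A F := x F 2

noncomputable def al : R := !![3, 0, 0, 0; X0, 9, 0, 0; X1, X0, 5, 0; X2, X1, X0, 4]
noncomputable def be : R := !![3, -X2, -X1, -X0; 0, 9, -X2, -X1; 0, 0, 5, -X2; 0, 0, 0, 4]
noncomputable def dg : R := !![3, 0, 0, 0; 0, 9, 0, 0; 0, 0, 5, 0; 0, 0, 0, 4]

lemma h11 : (11 : R) = 0 := by
  have : (11 : R) = algebraMap F R 11 := by rw [map_ofNat]
  rw [this, show (11 : F) = 0 from rfl, map_zero]

lemma phi5 (a : R) (h : (a - 4) * (a - 5) * (a - 9) * (a - 3) = 0 ∨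
    (a - 3) * (a - 9) * (a - 5) * (a - 4) = 0) : a ^ 4 + a ^ 3 + a ^ 2 + a + 1 = 0 := by
  have e1 : ((Polynomial.X - 4) * (Polynomial.X - 5) * (Polynomial.X - 9) * (Polynomial.X - 3) :
      Polynomial ℤ) = Polynomial.X ^ 4 + Polynomial.X ^ 3 + Polynomial.X ^ 2 + Polynomial.X + 1 +
      11 * (49 - 44 * Polynomial.X + 14 * Polynomial.X ^ 2 - 2 * Polynomial.X ^ 3) := by ring
  have e2 : ((Polynomial.X - 3) * (Polynomial.X - 9) * (Polynomial.X - 5) * (Polynomial.X - 4) :
      Polynomial ℤ) = Polynomial.X ^ 4 + Polynomial.X ^ 3 + Polynomial.X ^ 2 + Polynomial.X + 1 +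
      11 * (49 - 44 * Polynomial.X + 14 * Polynomial.X ^ 2 - 2 * Polynomial.X ^ 3) := by ring
  have f1 := congrArg (Polynomial.aeval a) e1
  have f2 := congrArg (Polynomial.aeval a) e2
  simp only [map_mul, map_sub, map_add, map_pow, Polynomial.aeval_X, map_ofNat, map_one, h11,
    zero_mul, add_zero] at f1 f2
  rcases h with h | h
  · rw [← f1, h]
  · rw [← f2, h]

lemma ofn (n : ℕ) [n.AtLeastTwo] : (ofNat(n) : R) =
    !![ofNat(n), 0, 0, 0; 0, ofNat(n), 0, 0; 0, 0, ofNat(n), 0; 0, 0, 0, ofNat(n)] := by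
  ext1 i j
  fin_cases i <;> fin_cases j <;> simp [Matrix.ofNat_apply] <;> rfl

lemma al5 : al ^ 4 + al ^ 3 + al ^ 2 + al + 1 = 0 := by
  refine phi5 _ (Or.inl ?_)
  rw [ofn 4, ofn 5, ofn 9, ofn 3]
  ext1 i j
  fin_cases i <;> fin_cases j <;> simp [al]

lemma be5 : be ^ 4 + be ^ 3 + be ^ 2 + be + 1 = 0 := by
  refine phi5 _ (Or.inr ?_)
  rw [ofn 4, ofn 5, ofn 9, ofn 3]
  ext1 i j
  fin_cases i <;> fin_cases j <;> simp [be]

lemma dg5 : dg ^ 4 + dg ^ 3 + dg ^ 2 + dg + 1 = 0 := by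
  refine phi5 _ (Or.inr ?_)
  rw [ofn 4, ofn 5, ofn 9, ofn 3]
  ext1 i j
  fin_cases i <;> fin_cases j <;> simp [dg]

lemma pow5 {a : R} (h : a ^ 4 + a ^ 3 + a ^ 2 + a + 1 = 0) : a ^ 5 = 1 := by
  have : a ^ 5 - 1 = a * (a ^ 4 + a ^ 3 + a ^ 2 + a + 1) - (a ^ 4 + a ^ 3 + a ^ 2 + a + 1) := by
    noncomm_ring
  rw [h] at this
  simpa [sub_eq_zero] using this

lemma cg_al : Cg al dg := by
  intro i j
  fin_cases i <;> fin_cases j <;> simp [al, dg, X0, X1, X2, x_mem]

lemma cg_be : Cg be dg := by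
  intro i j
  fin_cases i <;> fin_cases j <;> simp [be, dg, X0, X1, X2, x_mem]

noncomputable def dl : (Fin 4 → F) →ₐ[F] R :=
  (Matrix.diagonalAlgHom F).comp (AlgHom.pi fun i =>
    (Algebra.ofId F (A F)).comp (Pi.evalAlgHom F (fun _ => F) i))

lemma dl_apply (v : Fin 4 → F) : dl v = diagonal fun i => algebraMap F (A F) (v i) := rfl

def z : Fin 4 → F := ![3, 9, 5, 4]

lemma dl_z : dl z = dg := by
  rw [dl_apply]
  ext1 i j
  fin_cases i <;> fin_cases j <;> simp [dg, z] <;> exact map_ofNat (algebraMap F (A F)) _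

noncomputable def S : Subalgebra F R := Algebra.adjoin F {al, be}

lemma al_mem : al ∈ S := Algebra.subset_adjoin (by simp)
lemma be_mem : be ∈ S := Algebra.subset_adjoin (by simp)

lemma proj (j : Fin 4) : ∃ p ∈ S, Cg p (diagonal (Pi.single j 1)) := by
  have key : ∀ c a b d : F, ∃ p ∈ S, Cg p (dl (algebraMap F _ c * (z - algebraMap F _ a) *
      (z - algebraMap F _ b) * (z - algebraMap F _ d))) := by
    intro c a b d
    refine ⟨algebraMap F R c * (al - algebraMap F R a) * (al - algebraMap F R b) *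
      (al - algebraMap F R d), ?_, ?_⟩
    · exact mul_mem (mul_mem (mul_mem (S.algebraMap_mem _) (sub_mem al_mem (S.algebraMap_mem _)))
        (sub_mem al_mem (S.algebraMap_mem _))) (sub_mem al_mem (S.algebraMap_mem _))
    · simp only [map_mul, map_sub, AlgHom.commutes, dl_z]
      exact (((Cg.refl _).mul (cg_al.sub _)).mul (cg_al.sub _)).mul (cg_al.sub _)
  have e : (diagonal (Pi.single j 1) : R) = dl (Pi.single j 1) := by
    rw [dl_apply]; congr 1; funext i
    by_cases h : i = j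
    · subst h; rw [Pi.single_eq_same, Pi.single_eq_same, map_one]
    · rw [Pi.single_eq_of_ne h, Pi.single_eq_of_ne h, map_zero]
  rw [e]
  fin_cases j
  · convert key 10 9 5 4 using 5; decide
  · convert key 10 3 5 4 using 5; decide
  · convert key 4 3 9 4 using 5; decide
  · convert key 9 3 9 5 using 5; decide

lemma ga1 : InJ 1 (al - be) := by
  have := InJ.add cg_al (m' := -(be - dg)) (fun i j => Submodule.neg_mem _ (cg_be i j))
  simpa using this

lemma step (l : Fin 3) : ∃ q ∈ S, ∃ g : R, InJ 1 g ∧ InJ 2 (q - g) ∧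
    ∀ p : R, ∑ i, (g * p) i 0 = x F l * ∑ i, p i 0 := by
  choose P hP1 hP2 using proj
  let s : Fin 4 → Fin 4 := fun i => i + l.succ
  refine ⟨∑ i, P (s i) * (al - be) * P i,
    sum_mem fun i _ => mul_mem (mul_mem (hP1 _) (sub_mem al_mem be_mem)) (hP1 _),
    ∑ i, diagonal (Pi.single (s i) 1) * (al - be) * diagonal (Pi.single i 1), ?_, ?_, ?_⟩
  · intro a b
    rw [Matrix.sum_apply]
    refine Submodule.sum_mem _ fun i _ => ?_
    exact InJ.mul (a := 1) (b := 0) (InJ.mul (a := 0) (b := 1) (inJ0 _) ga1) (inJ0 _) a b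
  · intro a b
    rw [← Finset.sum_sub_distrib, Matrix.sum_apply]
    refine Submodule.sum_mem _ fun i _ => ?_
    have : P (s i) * (al - be) * P i - diagonal (Pi.single (s i) 1) * (al - be) *
        diagonal (Pi.single i 1) = (P (s i) - diagonal (Pi.single (s i) 1)) * (al - be) * P i +
        diagonal (Pi.single (s i) 1) * (al - be) * (P i - diagonal (Pi.single i 1)) := by
      noncomm_ring
    rw [this]
    refine InJ.add ?_ ?_ a b
    · exact InJ.mul (a := 2) (b := 0) (InJ.mul (a := 1) (b := 1) (hP2 (s i)) ga1) (inJ0 _)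
    · exact InJ.mul (a := 1) (b := 1) (InJ.mul (a := 0) (b := 1) (inJ0 _) ga1) (hP2 i)
  · intro p
    simp only [Finset.sum_mul, Matrix.sum_apply, mul_assoc, Matrix.diagonal_mul]
    rw [Finset.sum_comm, Finset.mul_sum]
    refine Finset.sum_congr rfl fun i _ => ?_
    rw [Finset.sum_eq_single (s i) (fun b _ hb => by simp [hb]) (by simp), Matrix.mul_apply,
      Finset.sum_eq_single i (fun b _ hb => by simp [hb]) (by simp)]
    simp only [Pi.single_eq_same, one_mul, Matrix.diagonal_mul]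
    congr 1
    fin_cases i <;> fin_cases l <;> simp [s, al, be, X0, X1, X2] <;> rfl

lemma approx (m : ℕ) : ∀ a ∈ J F m, ∃ p ∈ S, (∀ i, p i 0 ∈ J F m) ∧
    ∑ i, p i 0 - a ∈ J F (m + 1) := by
  induction m with
  | zero =>
    intro a _
    obtain ⟨c, u, rfl⟩ := decomp a
    refine ⟨algebraMap F R c, S.algebraMap_mem _, fun _ => trivial, ?_⟩
    have : ∑ i, (algebraMap F R c) i 0 = c • 1 := by
      simp [Matrix.algebraMap_eq_diagonal, Fin.sum_univ_four, Algebra.algebraMap_eq_smul_one]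
    rw [this]
    simpa using (mem_J_succ (n := 0)).2 ⟨u, fun _ => trivial, rfl⟩
  | succ m ih =>
    intro a ha
    obtain ⟨u, hu, rfl⟩ := mem_J_succ.1 ha
    choose p hp1 hp2 hp3 using fun l => ih _ (hu l)
    choose q hq1 g hg1 hg2 hg3 using step
    have col : ∀ (k : ℕ) (w : R) (l : Fin 3), InJ k w → ∀ i, (w * p l) i 0 ∈ J F (m + k) := by
      intro k w l hw i
      rw [Matrix.mul_apply]
      exact Submodule.sum_mem _ fun j _ => J_mul _ _ _ _ (hw i j) (hp2 l j)
    have sp : ∀ l i, (q l * p l) i 0 = ((q l - g l) * p l) i 0 + (g l * p l) i 0 := by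
      intro l i; rw [sub_mul]; simp
    refine ⟨∑ l, q l * p l, sum_mem fun l _ => mul_mem (hq1 l) (hp1 l), fun i => ?_, ?_⟩
    · rw [Matrix.sum_apply]
      refine Submodule.sum_mem _ fun l _ => ?_
      rw [sp]
      exact Submodule.add_mem _ (J_anti _ (col 2 _ l (hg2 l) i)) (col 1 _ l (hg1 l) i)
    · simp only [Matrix.sum_apply]
      rw [Finset.sum_comm, D_apply, ← Finset.sum_sub_distrib]
      refine Submodule.sum_mem _ fun l _ => ?_
      simp only [sp, Finset.sum_add_distrib, hg3]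
      rw [add_sub_assoc, ← mul_sub]
      exact Submodule.add_mem _ (Submodule.sum_mem _ fun i _ => col 2 _ l (hg2 l) i)
        (J_mul 1 (m + 1) _ _ (x_mem l) (hp3 l))

lemma exists_rel : ∃ r : ℕ → A F, (∀ k, r k ∈ J F (k + 2)) ∧
    ∀ m : R, InJ 1 m → ∃ n, ∀ i j, (m ^ n) i j ∈ I r := by
  haveI : Countable (A F) := MonoidAlgebra.coeff_injective.countable
  haveI : Countable R := inferInstanceAs (Countable (Fin 4 → Fin 4 → A F))
  haveI : Nonempty {m : R // InJ 1 m} := ⟨⟨0, fun _ _ => Submodule.zero_mem _⟩⟩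
  obtain ⟨f, hf⟩ := exists_surjective_nat {m : R // InJ 1 m}
  refine ⟨fun k => ((f (k / 16)).1 ^ (16 * (k / 16) + 18)) ⟨k % 16 / 4, by omega⟩
    ⟨k % 4, by omega⟩, fun k => J_anti' (by omega) ((f _).2.pow _ _ _), fun m hm => ?_⟩
  obtain ⟨t, ht⟩ := hf ⟨m, hm⟩
  refine ⟨16 * t + 18, fun i j => Submodule.subset_span ⟨1, 16 * t + 4 * i + j, 1, ?_⟩⟩
  have h1 : (16 * t + 4 * i + j) / 16 = t := by omega
  have h2 : (16 * t + 4 * i.val + j.val) % 16 / 4 = i.val := by omega
  have h3 : (16 * t + 4 * i.val + j.val) % 4 = j.val := by omega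
  simp only [h1, h2, h3, ht, one_mul, mul_one]

section
variable (r : ℕ → A F)

noncomputable def IV : Submodule F (Fin 4 → A F) := Submodule.pi Set.univ fun _ => I r

abbrev V := (Fin 4 → A F) ⧸ IV r

noncomputable def mv (m : R) : (Fin 4 → A F) →ₗ[F] (Fin 4 → A F) where
  toFun v := m *ᵥ v
  map_add' := Matrix.mulVec_add m
  map_smul' c v := by simp [Matrix.mulVec_smul]

lemma mv_le (m : R) : IV r ≤ (IV r).comap (mv m) := fun v hv i _ => by
  show ∑ j, m i j * v j ∈ I r
  exact Submodule.sum_mem _ fun j _ => I_left r _ _ (hv j trivial)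

noncomputable def ph0 (m : R) : End F (V r) := (IV r).mapQ (IV r) (mv m) (mv_le r m)

lemma ph0_mk (m : R) (v : Fin 4 → A F) :
    ph0 r m (Submodule.Quotient.mk v) = Submodule.Quotient.mk (m *ᵥ v) := rfl

lemma end_ext {f g : End F (V r)}
    (h : ∀ v, f (Submodule.Quotient.mk v) = g (Submodule.Quotient.mk v)) : f = g :=
  LinearMap.ext fun w => by
    obtain ⟨v, rfl⟩ := Submodule.Quotient.mk_surjective _ w
    exact h v

noncomputable def ph : R →+* End F (V r) where
  toFun := ph0 r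
  map_one' := end_ext r fun v => by simp [ph0_mk]
  map_mul' a b := end_ext r fun v => by simp [ph0_mk]
  map_zero' := end_ext r fun v => by simp [ph0_mk]
  map_add' a b := end_ext r fun v => by simp [ph0_mk, Matrix.add_mulVec]

lemma ph_mk (m : R) (v : Fin 4 → A F) :
    ph r m (Submodule.Quotient.mk v) = Submodule.Quotient.mk (m *ᵥ v) := rfl

noncomputable def aut (m : R) (h : m ^ 5 = 1) : MulAut (Multiplicative (V r)) where
  toFun v := Multiplicative.ofAdd (ph r m v.toAdd)
  invFun v := Multiplicative.ofAdd (ph r (m ^ 4) v.toAdd)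
  left_inv v := by
    simp only [toAdd_ofAdd]
    rw [← End.mul_apply, ← map_mul, ← pow_succ, h, map_one]; rfl
  right_inv v := by
    simp only [toAdd_ofAdd]
    rw [← End.mul_apply, ← map_mul, ← pow_succ', h, map_one]; rfl
  map_mul' a b := by simp

lemma fpf (m : R) (h : m ^ 4 + m ^ 3 + m ^ 2 + m + 1 = 0) (a : Multiplicative (V r))
    (ha : aut r m (pow5 h) a = a) : a = 1 := by
  have h1 : ph r m a.toAdd = a.toAdd := congrArg Multiplicative.toAdd ha
  have h2 := congrArg (fun u => ph r u a.toAdd) h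
  simp only [map_add, map_pow, map_one, pow_succ, pow_zero, one_mul, map_mul, LinearMap.add_apply,
    End.mul_apply, h1, End.one_apply, map_zero, LinearMap.zero_apply] at h2
  have h3 : (9 : F) • ((5 : F) • a.toAdd) = 0 := by
    rw [show (5 : F) = 1 + 1 + 1 + 1 + 1 from rfl]
    simp only [add_smul, one_smul, h2, smul_zero]
  rw [smul_smul, show (9 : F) * 5 = 1 from rfl, one_smul] at h3
  exact h3

def Rep (g : MulAut (Multiplicative (V r))) (m : R) : Prop :=
  ∀ v, g v = Multiplicative.ofAdd (ph r m v.toAdd)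

lemma Rep.mul {g g' m m'} (h : Rep r g m) (h' : Rep r g' m') : Rep r (g * g') (m * m') := by
  intro v
  rw [MulAut.mul_apply, h', h, map_mul]; rfl

lemma rep_one : Rep r 1 1 := fun v => by simp

lemma Rep.pow {g m} (h : Rep r g m) (n : ℕ) : Rep r (g ^ n) (m ^ n) := by
  induction n with
  | zero => simpa using rep_one r
  | succ n ih => rw [pow_succ, pow_succ]; exact ih.mul r h

lemma all_rep (g) (hg : g ∈ Subgroup.closure {aut r al (pow5 al5), aut r be (pow5 be5)}) :
    ∃ m ∈ S, (∃ k, Cg m (dg ^ k)) ∧ Rep r g m := by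
  induction hg using Subgroup.closure_induction'' with
  | mem g hg =>
    rcases hg with rfl | rfl
    · exact ⟨al, al_mem, ⟨1, by simpa using cg_al⟩, fun _ => rfl⟩
    · exact ⟨be, be_mem, ⟨1, by simpa using cg_be⟩, fun _ => rfl⟩
  | inv_mem g hg =>
    rcases hg with rfl | rfl
    · exact ⟨al ^ 4, pow_mem al_mem _, ⟨4, cg_al.pow 4⟩, fun _ => rfl⟩
    · exact ⟨be ^ 4, pow_mem be_mem _, ⟨4, cg_be.pow 4⟩, fun _ => rfl⟩
  | one => exact ⟨1, one_mem _, ⟨0, by simpa using Cg.refl 1⟩, rep_one r⟩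
  | mul g g' _ _ h h' =>
    obtain ⟨m, hm, ⟨k, hk⟩, h⟩ := h
    obtain ⟨m', hm', ⟨k', hk'⟩, h'⟩ := h'
    exact ⟨m * m', mul_mem hm hm', ⟨k + k', by rw [pow_add]; exact hk.mul hk'⟩, h.mul r h'⟩

lemma inf (hr : ∀ k, r k ∈ J F (k + 2)) :
    Infinite (Subgroup.closure {aut r al (pow5 al5), aut r be (pow5 be5)}) := by
  by_contra hf
  rw [not_infinite_iff_finite] at hf
  set G := Subgroup.closure {aut r al (pow5 al5), aut r be (pow5 be5)} with hG
  choose m _ _ hm using fun g : G => all_rep r g.1 g.2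
  let U : Submodule F (A F) := Submodule.span F (Set.range fun g => ∑ i, m g i 0)
  haveI : FiniteDimensional F U := FiniteDimensional.span_of_finite F (Set.finite_range _)
  have h1 : ∀ p ∈ Submonoid.closure {al, be}, ∃ g ∈ G, Rep r g p := by
    intro p hp
    induction hp using Submonoid.closure_induction with
    | mem p hp =>
      rcases hp with rfl | rfl
      · exact ⟨_, Subgroup.subset_closure (Or.inl rfl), fun _ => rfl⟩
      · exact ⟨_, Subgroup.subset_closure (Or.inr rfl), fun _ => rfl⟩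
    | one => exact ⟨1, one_mem _, rep_one r⟩
    | mul p p' _ _ h h' =>
      obtain ⟨g, hg, h⟩ := h
      obtain ⟨g', hg', h'⟩ := h'
      exact ⟨g * g', mul_mem hg hg', h.mul r h'⟩
  have h2 : ∀ p ∈ S, ∑ i, p i 0 ∈ I r ⊔ U := by
    intro p hp
    rw [S, ← Subalgebra.mem_toSubmodule, Algebra.adjoin_eq_span] at hp
    induction hp using Submodule.span_induction with
    | mem p hp =>
      obtain ⟨g, hg, h⟩ := h1 p hp
      have e := (h (Multiplicative.ofAdd (Submodule.Quotient.mk (Pi.single 0 1)))).symm.trans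
        (hm ⟨g, hg⟩ _)
      simp only [toAdd_ofAdd, ph_mk, EmbeddingLike.apply_eq_iff_eq, Submodule.Quotient.eq] at e
      have : ∑ i, p i 0 = ∑ i, (p i 0 - m ⟨g, hg⟩ i 0) + ∑ i, m ⟨g, hg⟩ i 0 := by
        rw [← Finset.sum_add_distrib]; simp
      rw [this]
      refine Submodule.add_mem_sup (Submodule.sum_mem _ fun i _ => ?_)
        (Submodule.subset_span ⟨_, rfl⟩)
      simpa using e i trivial
    | zero => simp
    | add a b _ _ ha hb =>
      simp only [Matrix.add_apply, Finset.sum_add_distrib]; exact add_mem ha hb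
    | smul c a _ ha =>
      simp only [Matrix.smul_apply, ← Finset.smul_sum]; exact Submodule.smul_mem _ _ ha
  have h3 : ∀ n, K r n ⊔ U = ⊤ := by
    intro n
    induction n with
    | zero => exact eq_top_iff.2 fun a _ => Submodule.mem_sup_left (Submodule.mem_sup_right trivial)
    | succ n ih =>
      rw [eq_top_iff, ← ih]
      refine sup_le (sup_le (le_sup_of_le_left le_sup_left) fun a ha => ?_) le_sup_right
      obtain ⟨p, hp, -, h⟩ := approx n a ha
      have : a = ∑ i, p i 0 - (∑ i, p i 0 - a) := by simp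
      rw [this]
      exact sub_mem ((sup_le_sup_right le_sup_left U) (h2 p hp))
        (Submodule.mem_sup_left (Submodule.mem_sup_right h))
  obtain ⟨n, hn⟩ := exists_ne_top r hr U
  exact hn (h3 n)

lemma rep_aut (m : R) (h : m ^ 5 = 1) : Rep r (aut r m h) m := fun _ => rfl

lemma ord [Nontrivial (Multiplicative (V r))] (m : R) (h : m ^ 4 + m ^ 3 + m ^ 2 + m + 1 = 0) :
    orderOf (aut r m (pow5 h)) = 5 := by
  haveI : Fact (Nat.Prime 5) := ⟨by norm_num⟩
  refine orderOf_eq_prime (MulEquiv.ext fun v => ?_) fun e => ?_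
  · rw [(rep_aut r m (pow5 h)).pow r 5 v, pow5 h, map_one]; rfl
  · obtain ⟨a, ha⟩ := exists_ne (1 : Multiplicative (V r))
    exact ha (fpf r m h a (by rw [e]; rfl))

lemma unip (u : R) (n : ℕ) (hn : ∀ i j, ((u - 1) ^ n) i j ∈ I r) : ph r (u ^ 11 ^ n) = 1 := by
  have z1 : ph r ((u - 1) ^ n) = 0 := end_ext r fun v => by
    rw [ph_mk, LinearMap.zero_apply, Submodule.Quotient.mk_eq_zero]
    intro i _
    show ∑ j, ((u - 1) ^ n) i j * v j ∈ I r
    exact Submodule.sum_mem _ fun j _ => I_right r _ _ (hn i j)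
  haveI : CharP R 11 := (CharP.charP_iff_prime_eq_zero (by norm_num)).2 (by
    rw [Nat.cast_ofNat]; exact h11)
  have e := add_pow_char_pow_of_commute 11 n (Commute.one_left (u - 1))
  rw [add_sub_cancel, one_pow] at e
  obtain ⟨d, hd⟩ := Nat.exists_eq_add_of_le (Nat.lt_pow_self (by norm_num : 1 < 11) (n := n)).le
  rw [e, map_add, map_one, hd, pow_add, map_mul, z1, zero_mul, add_zero]

lemma per (hn : ∀ m : R, InJ 1 m → ∃ n, ∀ i j, (m ^ n) i j ∈ I r) (g) (m : R) (k : ℕ)
    (hk : Cg m (dg ^ k)) (h : Rep r g m) : IsOfFinOrder g := by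
  have h5 := hk.pow 5
  rw [← pow_mul, mul_comm k, pow_mul, pow5 dg5, one_pow] at h5
  obtain ⟨n, hn⟩ := hn _ h5
  have z2 := unip r _ n hn
  refine isOfFinOrder_iff_pow_eq_one.2 ⟨5 * 11 ^ n, by positivity, MulEquiv.ext fun v => ?_⟩
  rw [h.pow r _ v, pow_mul, z2]; rfl

end

lemma nontriv {M : Type} [Group M] (H : Subgroup (MulAut M)) (hi : Infinite H) :
    Nontrivial M := by
  by_contra h
  rw [not_nontrivial_iff_subsingleton] at h
  haveI : Subsingleton (MulAut M) := ⟨fun a b => MulEquiv.ext fun _ => Subsingleton.elim _ _⟩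
  exact not_finite H

theorem result : ∃ (A : Type) (_ : CommGroup A) (α β : MulAut A),
    (∀ a, α a = a → a = 1) ∧ (∀ a, β a = a → a = 1) ∧ orderOf α = 5 ∧ orderOf β = 5 ∧
    (∀ g ∈ Subgroup.closure {α, β}, IsOfFinOrder g) ∧ Infinite (Subgroup.closure {α, β}) := by
  obtain ⟨r, hr, hn⟩ := exists_rel
  have hi := inf r hr
  haveI := nontriv _ hi
  refine ⟨Multiplicative (V r), inferInstance, aut r al (pow5 al5), aut r be (pow5 be5),
    fpf r al al5, fpf r be be5, ord r al al5, ord r be be5, fun g hg => ?_, hi⟩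
  obtain ⟨m, -, ⟨k, hk⟩, h⟩ := all_rep r g hg
  exact per r hn g m k hk h

end Pool.Agent.Results.MP_b15bac_al.Golod5
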